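import Mathlib
import Pool.Agent.W443.J6.T5

/-!
The trapezoidal Newton polygon problem for all parameters with `gcd (m, n) = a`.
-/

set_option autoImplicit false

open MvPolynomial

namespace Pool.Agent.Results.MP_2d59ee_ag.CoprimeTrapezoid

/-- Let `a, b, m, n` be positive integers with `0 < m < n`, `gcd (m, n) = a`, `gcd (a, b) = 1` and
`2 ≤ a < b`, and let the complex polynomials `F, G` satisfy the conditions 1 to 5 of the problem.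
Then the Jacobian of `F` and `G` is zero. -/
theorem result :
    ∀ (a b m n : ℕ), 0 < m → m < n → Nat.gcd m n = a → Nat.gcd a b = 1 → 2 ≤ a → a < b →
    ∀ F G : MvPolynomial (Fin 2) ℂ,
      convexHull ℝ (insert ((0:ℝ), (0:ℝ))
        ((fun d : Fin 2 →₀ ℕ => ((d 0 : ℝ), (d 1 : ℝ))) '' (↑F.support : Set (Fin 2 →₀ ℕ))))
        = {p : ℝ × ℝ | 0 ≤ p.2 ∧ p.2 ≤ (n : ℝ) ∧ 0 ≤ p.1 ∧ p.1 ≤ (m : ℝ) + (n : ℝ) - p.2} →
      convexHull ℝ (insert ((0:ℝ), (0:ℝ))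
        ((fun d : Fin 2 →₀ ℕ => ((d 0 : ℝ), (d 1 : ℝ))) ''
          (↑(F - X 0 ^ m * X 1 ^ n).support : Set (Fin 2 →₀ ℕ))))
        ⊂ convexHull ℝ (insert ((0:ℝ), (0:ℝ))
        ((fun d : Fin 2 →₀ ℕ => ((d 0 : ℝ), (d 1 : ℝ))) '' (↑F.support : Set (Fin 2 →₀ ℕ)))) →
      (∀ i : ℕ, i ≤ m →
        ((X 0 + 1 : MvPolynomial (Fin 2) ℂ) ^ (m - i)) ∣
          weightedHomogeneousComponent (![(0:ℕ), 1] : Fin 2 → ℕ) (n - i) F) →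
      (∀ i : ℕ, i ≤ n →
        ((X 0 + X 1 : MvPolynomial (Fin 2) ℂ) ^ (n - i)) ∣
          homogeneousComponent (m + n - i) F) →
      convexHull ℝ (insert ((0:ℝ), (0:ℝ))
        ((fun d : Fin 2 →₀ ℕ => ((d 0 : ℝ), (d 1 : ℝ))) '' (↑G.support : Set (Fin 2 →₀ ℕ))))
        = {p : ℝ × ℝ | 0 ≤ p.2 ∧ p.2 ≤ ((b * n / a : ℕ) : ℝ) ∧ 0 ≤ p.1 ∧
            p.1 ≤ ((b * m / a : ℕ) : ℝ) + ((b * n / a : ℕ) : ℝ) - p.2} →
      convexHull ℝ (insert ((0:ℝ), (0:ℝ))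
        ((fun d : Fin 2 →₀ ℕ => ((d 0 : ℝ), (d 1 : ℝ))) ''
          (↑(G - X 0 ^ (b * m / a) * X 1 ^ (b * n / a)).support : Set (Fin 2 →₀ ℕ))))
        ⊂ convexHull ℝ (insert ((0:ℝ), (0:ℝ))
        ((fun d : Fin 2 →₀ ℕ => ((d 0 : ℝ), (d 1 : ℝ))) '' (↑G.support : Set (Fin 2 →₀ ℕ)))) →
      (∃ c : ℂ, pderiv 0 F * pderiv 1 G - pderiv 1 F * pderiv 0 G = C c) →
      pderiv 0 F * pderiv 1 G - pderiv 1 F * pderiv 0 G = 0 := by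
  intro a b m n hm hmn hg hab ha hlt F G h1 h2 _ h3 h4 _ hJ
  exact Pool.Agent.W443.J6.trap a b m n hm hmn (hg ▸ Nat.gcd_dvd_left m n)
    (hg ▸ Nat.gcd_dvd_right m n) hab ha hlt (Or.inl hg) F G h1 h2 h3 h4 hJ

end Pool.Agent.Results.MP_2d59ee_ag.CoprimeTrapezoid
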